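import Pool.Agent.Helper99.GLN.Moves

/-!
# The `gl_N` state sum: the oriented link invariant
-/

namespace Helper99.GLN

open Pool.Agent.Helper26.WD Pool.Agent.Helper26.WD.Piece

noncomputable section

variable {K : Type*} [Field K] {N : ℕ}

theorem act_add (q : K) (D : List (Piece Bool)) (V W : St N → K) :
    act q D (V + W) = act q D V + act q D W := by
  induction D with
  | nil => rfl
  | cons p D ih => rw [act_cons, ih, map_add, act_cons, act_cons]

theorem act_smul (q : K) (D : List (Piece Bool)) (r : K) (V : St N → K) :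
    act q D (r • V) = r • act q D V := by
  induction D with
  | nil => rfl
  | cons p D ih => rw [act_cons, ih, map_smul, act_cons]

/-- the empty state at the top -/
def top (K : Type*) [Field K] (N : ℕ) : St N → K
  | [] => 1
  | _ => 0

/-- the state sum -/
def st (q : K) (N : ℕ) (D : List (Piece Bool)) : K := act q D (top K N) []

theorem st_nil (q : K) (N : ℕ) : st q N [] = 1 := rfl

theorem st_zero (q : K) (N : ℕ) (D : List (Piece Bool)) (h : run D [] ≠ some []) :
    st q N D = 0 := by
  have e : act q D (top K N) [] = act q D (0 : St N → K) [] := by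
    refine act_congr q D [] _ _ fun t ht => ?_
    match t with
    | [] => exact absurd ht h
    | _ :: _ => rfl
  rw [st, e, act_zero]
  rfl

theorem st_step {q : K} (hq : q ≠ 0) (N : ℕ) {D D' : List (Piece Bool)}
    (h : StepBy Move D D') : st q N D = st q N D' := by
  obtain ⟨D₁, A, B, D₂, hM, rfl, rfl, h1, h2⟩ := h
  rw [st, st, act_append, act_append, act_append, act_append]
  refine act_congr q D₁ [] _ _ fun t ht => same_move hq hM _ t ?_ ?_
  · intro hn
    unfold IsDiagram at h1
    rw [run_append, run_append, show ([] : List Bool) = dirs ([] : St N) from rfl, ht,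
      Option.bind_some, hn] at h1
    simp at h1
  · intro hn
    unfold IsDiagram at h2
    rw [run_append, run_append, show ([] : List Bool) = dirs ([] : St N) from rfl, ht,
      Option.bind_some, hn] at h2
    simp at h2

theorem st_circle {q : K} (hq : q ≠ 0) (N : ℕ) :
    (q - q⁻¹) * st q N [cup 0 true, cap 0] = q ^ N - (q⁻¹) ^ N := by
  have e : st q N [cup 0 true, cap 0] = ∑ x : Fin N, cupw q true x * capw q true x := by
    change pc q (cup 0 true) (pc q (cap 0) (top K N)) [] = _
    rw [pc_cup]
    refine Finset.sum_congr rfl fun x _ => ?_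
    rw [pc_cap, if_pos rfl, if_pos rfl]
    simp [top]
  rw [e, circle_sum hq]

theorem skein_zero {q : K} (hq : q ≠ 0) (a b : Bool) (x y : Fin N) (V : St N → K) (t : St N) :
    q ^ N * act q [posCr 0 a b] V ((a, x) :: (b, y) :: t) -
      (q⁻¹) ^ N * act q [negCr 0 a b] V ((a, x) :: (b, y) :: t) =
      (q - q⁻¹) * act q (smooth 0 a b) V ((a, x) :: (b, y) :: t) := by
  by_cases h : b = a
  · subst h
    have e1 : posCr 0 b b = cr 0 true := by simp [posCr]
    have e2 : negCr 0 b b = cr 0 false := by simp [negCr]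
    have e3 : smooth 0 b b = [] := by simp [smooth]
    rw [e1, e2, e3]
    exact crF_skein_par hq b x y (fun z w => V ((b, z) :: (b, w) :: t))
  · have : b = !a := by revert h; cases a <;> cases b <;> simp
    subst this
    have e1 : posCr 0 a (!a) = cr 0 false := by cases a <;> simp [posCr]
    have e2 : negCr 0 a (!a) = cr 0 true := by cases a <;> simp [negCr]
    have e3 : smooth 0 a (!a) = [cap 0, cup 0 (!a)] := by cases a <;> simp [smooth]
    rw [e1, e2, e3]
    have e4 : act q [cap 0, cup 0 (!a)] V ((a, x) :: (!a, y) :: t) =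
        if x = y then capw q a x * ∑ z, cupw q (!a) z * V ((!a, z) :: (a, z) :: t) else 0 := by
      change pc q (cap 0) (pc q (cup 0 (!a)) V) _ = _
      rw [pc_cap, if_pos rfl, pc_cup]
      simp only [Bool.not_not]
    rw [e4]
    exact crF_skein_anti hq a x y (fun z w => V ((!a, z) :: (a, w) :: t))

theorem skein_at {q : K} (hq : q ≠ 0) (a b : Bool) (s₂ : List Bool) (s₁ : List Bool) :
    ∀ (V : St N → K) (t : St N), dirs t = s₁ ++ a :: b :: s₂ →
    q ^ N * act q [posCr s₁.length a b] V t - (q⁻¹) ^ N * act q [negCr s₁.length a b] V t =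
      (q - q⁻¹) * act q (smooth s₁.length a b) V t := by
  induction s₁ with
  | nil =>
    intro V t ht
    match t, ht with
    | (a', x) :: (b', y) :: t, ht =>
      simp only [dirs_cons, List.nil_append, List.cons.injEq] at ht
      obtain ⟨rfl, rfl, -⟩ := ht
      exact skein_zero hq a' b' x y V t
  | cons c s₁ ih =>
    intro V t ht
    match t, ht with
    | (c', z) :: t, ht =>
      simp only [dirs_cons, List.cons_append, List.cons.injEq] at ht
      have h := ih (fun u => V ((c', z) :: u)) t ht.2
      have e1 : [posCr (c :: s₁).length a b] = [posCr s₁.length a b].map (Piece.shift 1) := rfl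
      have e2 : [negCr (c :: s₁).length a b] = [negCr s₁.length a b].map (Piece.shift 1) := rfl
      have e3 : smooth (c :: s₁).length a b = (smooth s₁.length a b).map (Piece.shift 1) := by
        unfold smooth
        split_ifs <;> rfl
      rw [e1, e2, e3, act_shift_cons, act_shift_cons, act_shift_cons]
      exact h

theorem st_skein {q : K} (hq : q ≠ 0) (N : ℕ) (D₁ D₂ : List (Piece Bool)) (i : ℕ)
    (s₁ s₂ : List Bool) (a b : Bool) (h : run D₁ [] = some (s₁ ++ a :: b :: s₂))
    (hi : s₁.length = i) :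
    q ^ N * st q N (D₁ ++ [posCr i a b] ++ D₂) - (q⁻¹) ^ N * st q N (D₁ ++ [negCr i a b] ++ D₂)
      = (q - q⁻¹) * st q N (D₁ ++ smooth i a b ++ D₂) := by
  subst hi
  simp only [st, act_append]
  have e1 : ∀ (r : K) (V : St N → K), r * act q D₁ V [] = act q D₁ (r • V) [] := by
    intro r V
    rw [act_smul]
    rfl
  rw [e1, e1, e1, sub_eq_iff_eq_add]
  have e2 : ∀ (V W : St N → K), act q D₁ V [] + act q D₁ W [] = act q D₁ (V + W) [] := by
    intro V W
    rw [act_add]
    rfl
  rw [e2]
  refine act_congr q D₁ [] _ _ fun t ht => ?_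
  rw [dirs_nil, h, Option.some.injEq] at ht
  have := skein_at hq a b s₂ s₁ (act q D₂ (top K N)) t ht.symm
  simp only [Pi.smul_apply, Pi.add_apply, smul_eq_mul]
  linear_combination this

/-- Existence of the `gl_N` invariant of oriented links, over any field. -/
theorem exists_glN' {K : Type*} [Field K] (N : ℕ) (q : K) (hq : q ≠ 0) :
    ∃ f : List (Piece Bool) → K,
      (∀ D D', StepBy Move D D' → f D = f D') ∧
      f [] = 1 ∧
      (∀ D, run D [] ≠ some [] → f D = 0) ∧
      (q - q⁻¹) * f [cup 0 true, cap 0] = q ^ N - (q⁻¹) ^ N ∧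
      (∀ (D₁ D₂ : List (Piece Bool)) (i : ℕ) (s₁ s₂ : List Bool) (a b : Bool),
        run D₁ [] = some (s₁ ++ a :: b :: s₂) → s₁.length = i →
        run D₂ (s₁ ++ b :: a :: s₂) = some [] →
        q ^ N * f (D₁ ++ [posCr i a b] ++ D₂) - (q⁻¹) ^ N * f (D₁ ++ [negCr i a b] ++ D₂)
          = (q - q⁻¹) * f (D₁ ++ smooth i a b ++ D₂)) :=
  ⟨st q N, fun _ _ h => st_step hq N h, st_nil q N, st_zero q N, st_circle hq N,
    fun D₁ D₂ i s₁ s₂ a b h hi _ => st_skein hq N D₁ D₂ i s₁ s₂ a b h hi⟩

/-- Existence of the `gl_N` invariant of oriented links. -/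
theorem exists_glN (N : ℕ) (_hN : 0 < N) (q : ℝ) (hq : 1 < q) :
    ∃ f : List (Piece Bool) → ℝ,
      (∀ D D', StepBy Move D D' → f D = f D') ∧
      f [] = 1 ∧
      (∀ D, run D [] ≠ some [] → f D = 0) ∧
      (q - q⁻¹) * f [cup 0 true, cap 0] = q ^ N - (q⁻¹) ^ N ∧
      (∀ (D₁ D₂ : List (Piece Bool)) (i : ℕ) (s₁ s₂ : List Bool) (a b : Bool),
        run D₁ [] = some (s₁ ++ a :: b :: s₂) → s₁.length = i →
        run D₂ (s₁ ++ b :: a :: s₂) = some [] →
        q ^ N * f (D₁ ++ [posCr i a b] ++ D₂) - (q⁻¹) ^ N * f (D₁ ++ [negCr i a b] ++ D₂)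
          = (q - q⁻¹) * f (D₁ ++ smooth i a b ++ D₂)) :=
  exists_glN' N q (by positivity)

end

end Helper99.GLN
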