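import Mathlib

/-!
# The `gl_N` R-matrix: weights and local identities
-/

namespace Helper99.GLN

noncomputable section

set_option linter.unusedSimpArgs false
set_option linter.unnecessarySeqFocus false

variable {K : Type*} [Field K] {N : ℕ}

/-- A telescoping sum over labels. -/
theorem tel (G : ℕ → K) {a b : ℕ} (hab : a ≤ b) (hb : b ≤ N) :
    ∑ x : Fin N, (if a ≤ (x : ℕ) ∧ (x : ℕ) < b then G (x + 1) - G x else 0) = G b - G a := by
  rw [Fin.sum_univ_eq_sum_range (fun x => if a ≤ x ∧ x < b then G (x + 1) - G x else 0) N]
  rw [← Finset.sum_filter]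
  have h : (Finset.range N).filter (fun x => a ≤ x ∧ x < b) = Finset.Ico a b := by
    ext x
    simp only [Finset.mem_filter, Finset.mem_range, Finset.mem_Ico]
    omega
  rw [h, Finset.sum_Ico_eq_sub _ hab, Finset.sum_range_sub, Finset.sum_range_sub]
  ring

/-- the weight of a label -/
def mu (q : K) (N c : ℕ) : K := q ^ (2 * c + 1) * (q ^ N)⁻¹

/-- the weight of a local minimum -/
def cupw (q : K) (a : Bool) (c : Fin N) : K := if a then mu q N c else 1

/-- the weight of a local maximum -/
def capw (q : K) (a : Bool) (c : Fin N) : K := if a then 1 else (mu q N c)⁻¹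

/-- the sign of a crossing (`true` for positive) -/
def sgn (o a b : Bool) : Bool := o == (a == b)

/-- diagonal weight -/
def ee (q : K) (p : Bool) : K := if p then q else q⁻¹

/-- the off-diagonal weight -/
def sh (q : K) (p : Bool) : K := if p then q - q⁻¹ else -(q - q⁻¹)

/-- the normalisation -/
def nr (q : K) (N : ℕ) (p : Bool) : K := if p then (q ^ N)⁻¹ else q ^ N

/-- comparison of labels -/
def lab (p : Bool) (x y : Fin N) : Prop := if p then x < y else y < x

instance (p : Bool) (x y : Fin N) : Decidable (lab p x y) := by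
  unfold lab; cases p <;> infer_instance

/-- weight of crossing labels -/
def cE (q : K) (o a b : Bool) (x y : Fin N) : K :=
  nr q N (sgn o a b) * (if x = y then ee q (sgn o a b) else 1)

/-- weight of going straight on -/
def cA (q : K) (o a b : Bool) (x y : Fin N) : K :=
  if a = b then (if lab (a == o) x y then nr q N (sgn o a b) * sh q (sgn o a b) else 0) else 0

/-- weight of turning back -/
def cB (q : K) (o a b : Bool) (x y z : Fin N) : K :=
  if a = b then 0 else
    (if x = y then (if lab (a == o) x z then
      nr q N (sgn o a b) * sh q (sgn o a b) * (capw q a x * cupw q b z) else 0) else 0)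

/-- the operator of a crossing -/
def crF (q : K) (o a b : Bool) (x y : Fin N) (g : Fin N → Fin N → K) : K :=
  cE q o a b x y * g y x + cA q o a b x y * g x y + ∑ z, cB q o a b x y z * g z z

theorem mu_ne {q : K} (hq : q ≠ 0) (N c : ℕ) : mu q N c ≠ 0 :=
  mul_ne_zero (pow_ne_zero _ hq) (inv_ne_zero (pow_ne_zero _ hq))

theorem cup_cap {q : K} (hq : q ≠ 0) (a : Bool) (c : Fin N) :
    cupw q a c * capw q (!a) c = 1 := by
  cases a <;> simp [cupw, capw, mu_ne hq]

theorem cap_cup {q : K} (hq : q ≠ 0) (a : Bool) (c : Fin N) :
    capw q a c * cupw q (!a) c = 1 := by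
  cases a <;> simp [cupw, capw, mu_ne hq]

/-! ### slides -/

theorem sgn_slide (o a d : Bool) : sgn o (!a) d = sgn (!o) d a := by
  cases o <;> cases a <;> cases d <;> rfl

theorem cE_slide (q : K) (o a d : Bool) (x y : Fin N) :
    cE q o (!a) d x y = cE q (!o) d a y x := by
  simp only [cE, sgn_slide, eq_comm (a := x)]

theorem cA_slide {q : K} (hq : q ≠ 0) (o a d : Bool) (x y : Fin N) :
    cupw q a x * cA q o (!a) d x y = cupw q a y * cB q (!o) d a y y x := by
  have := mu_ne hq N x
  have := mu_ne hq N y
  cases o <;> cases a <;> cases d <;> simp [cA, cB, cupw, capw, lab, sgn, sh] <;>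
    split_ifs <;> field_simp

theorem cB_slide {q : K} (hq : q ≠ 0) (o a d : Bool) (y z : Fin N) :
    cupw q a y * cB q o (!a) d y y z = cupw q a z * cA q (!o) d a y z := by
  have := mu_ne hq N z
  have := mu_ne hq N y
  cases o <;> cases a <;> cases d <;> simp [cA, cB, cupw, capw, lab, sgn, sh] <;>
    split_ifs <;> field_simp

theorem cB_ne (q : K) (o a b : Bool) {x y : Fin N} (h : x ≠ y) (z : Fin N) :
    cB q o a b x y z = 0 := by
  simp [cB, h]

theorem crF_slideCup {q : K} (hq : q ≠ 0) (o a d : Bool) (y : Fin N)
    (g : Fin N → Fin N → Fin N → K) :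
    ∑ x, cupw q a x * crF q o (!a) d x y (fun z w => g x z w) =
      ∑ x, cupw q a x * crF q (!o) d a y x (fun z w => g z w x) := by
  simp only [crF, mul_add, Finset.sum_add_distrib]
  have h1 : ∑ x, cupw q a x * (cE q o (!a) d x y * g x y x) =
      ∑ x, cupw q a x * (cE q (!o) d a y x * g x y x) := by
    simp only [cE_slide]
  have h2 : ∑ x, cupw q a x * (cA q o (!a) d x y * g x x y) =
      ∑ x, cupw q a x * ∑ z, cB q (!o) d a y x z * g z z x := by
    rw [Finset.sum_eq_single y (f := fun x => cupw q a x * ∑ z, cB q (!o) d a y x z * g z z x)]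
    · rw [Finset.mul_sum]
      refine Finset.sum_congr rfl fun x _ => ?_
      rw [← mul_assoc, cA_slide hq, mul_assoc]
    · intro x _ hx
      simp [cB_ne q (!o) d a (Ne.symm hx)]
    · simp
  have h3 : ∑ x, cupw q a x * ∑ z, cB q o (!a) d x y z * g x z z =
      ∑ x, cupw q a x * (cA q (!o) d a y x * g y x x) := by
    rw [Finset.sum_eq_single y]
    · rw [Finset.mul_sum]
      refine Finset.sum_congr rfl fun x _ => ?_
      rw [← mul_assoc, cB_slide hq, mul_assoc]
    · intro x _ hx
      simp [cB_ne q o (!a) d hx]
    · simp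
  rw [h1, h2, h3]
  ring

theorem crF_slideCap {q : K} (hq : q ≠ 0) (o a b : Bool) (x y r : Fin N) (g : Fin N → K) :
    crF q o a b x y (fun z w => if w = r then capw q a w * g z else 0) =
      crF q (!o) b (!a) y r (fun z w => if x = z then capw q a x * g w else 0) := by
  have e1 : cE q o a b x y = cE q (!o) b (!a) y x := by
    have := cE_slide q o (!a) b x y
    rwa [Bool.not_not] at this
  have e2 : capw q a y * cA q o a b x y = capw q a x * cB q (!o) b (!a) y y x := by
    have := cA_slide hq o (!a) b x y
    rw [Bool.not_not] at this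
    have h1 := cap_cup hq a x
    have h2 := cap_cup hq a y
    linear_combination (capw q a x * capw q a y) * this
      - (capw q a y * cA q o a b x y) * h1 + (capw q a x * cB q (!o) b (!a) y y x) * h2
  have e3 : capw q a r * cB q o a b x x r = capw q a x * cA q (!o) b (!a) x r := by
    have := cB_slide hq o (!a) b x r
    rw [Bool.not_not] at this
    have h1 := cap_cup hq a x
    have h2 := cap_cup hq a r
    linear_combination (capw q a x * capw q a r) * this
      - (capw q a r * cB q o a b x x r) * h1 + (capw q a x * cA q (!o) b (!a) x r) * h2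
  simp only [crF]
  have s1 : ∑ z, cB q o a b x y z * (if z = r then capw q a z * g z else 0) =
      cB q o a b x y r * (capw q a r * g r) := by
    simp
  have s2 : ∑ z, cB q (!o) b (!a) y r z * (if x = z then capw q a x * g z else 0) =
      cB q (!o) b (!a) y r x * (capw q a x * g x) := by
    simp
  rw [s1, s2]
  have t1 : cE q o a b x y * (if x = r then capw q a x * g y else 0) =
      cE q (!o) b (!a) y r * (if x = r then capw q a x * g y else 0) := by
    split_ifs with h
    · rw [e1, h]
    · simp
  have t2 : cA q o a b x y * (if y = r then capw q a y * g x else 0) =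
      cB q (!o) b (!a) y r x * (capw q a x * g x) := by
    split_ifs with h
    · subst h
      linear_combination g x * e2
    · rw [cB_ne q _ _ _ h]
      simp
  have t3 : cB q o a b x y r * (capw q a r * g r) =
      cA q (!o) b (!a) y r * (if x = y then capw q a x * g r else 0) := by
    split_ifs with h
    · subst h
      linear_combination g r * e3
    · rw [cB_ne q _ _ _ h]
      simp
  rw [t1, t2, t3]
  ring

/-! ### linearity -/

theorem crF_congr (q : K) (o a b : Bool) (x y : Fin N) {g g' : Fin N → Fin N → K}
    (h : ∀ z w, g z w = g' z w) : crF q o a b x y g = crF q o a b x y g' := by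
  have : g = g' := by funext z w; exact h z w
  rw [this]

/-! ### second Reidemeister move -/

theorem crF_r2_par {q : K} (hq : q ≠ 0) (o a : Bool) (x y : Fin N) (g : Fin N → Fin N → K) :
    crF q o a a x y (fun z w => crF q (!o) a a z w g) = g x y := by
  have h : ∀ p r : Fin N, p < r → ¬ r < p := fun p r => not_lt_of_gt
  have hN : q ^ N ≠ 0 := pow_ne_zero _ hq
  rcases lt_trichotomy x y with hxy | hxy | hxy
  · have h1 := ne_of_lt hxy
    have h2 := (ne_of_lt hxy).symm
    have h3 := h _ _ hxy
    cases o <;> cases a <;>
      simp [crF, cE, cA, cB, lab, sgn, sh, ee, nr, hxy, h1, h2, h3] <;> field_simp <;> ring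
  · subst hxy
    cases o <;> cases a <;>
      simp [crF, cE, cA, cB, lab, sgn, ee, nr] <;> field_simp
  · have h1 := ne_of_lt hxy
    have h2 := (ne_of_lt hxy).symm
    have h3 := h _ _ hxy
    cases o <;> cases a <;>
      simp [crF, cE, cA, cB, lab, sgn, sh, ee, nr, hxy, h1, h2, h3] <;> field_simp <;> ring

/-! ### geometric sums -/

/-- the function used for telescoping -/
def gm (q : K) (N c : ℕ) : K := q ^ (2 * c) * (q ^ N)⁻¹

theorem gm_ne {q : K} (hq : q ≠ 0) (N c : ℕ) : gm q N c ≠ 0 :=
  mul_ne_zero (pow_ne_zero _ hq) (inv_ne_zero (pow_ne_zero _ hq))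

theorem mu_eq (q : K) (N c : ℕ) : mu q N c = q * gm q N c := by
  simp only [mu, gm]; ring

theorem gm_succ (q : K) (N c : ℕ) : gm q N (c + 1) = q ^ 2 * gm q N c := by
  simp only [gm]; ring

theorem gm_zero (q : K) (N : ℕ) : gm q N 0 = (q ^ N)⁻¹ := by simp [gm]

theorem gm_top {q : K} (hq : q ≠ 0) (N : ℕ) : gm q N N = q ^ N := by
  have hN : q ^ N ≠ 0 := pow_ne_zero _ hq
  simp only [gm]
  field_simp
  ring

theorem h_mu {q : K} (hq : q ≠ 0) (N c : ℕ) :
    (q - q⁻¹) * mu q N c = gm q N (c + 1) - gm q N c := by
  rw [mu_eq, gm_succ]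
  field_simp

theorem h_mu_inv {q : K} (hq : q ≠ 0) (N c : ℕ) :
    (q - q⁻¹) * (mu q N c)⁻¹ = -(gm q N (c + 1))⁻¹ - -(gm q N c)⁻¹ := by
  have := gm_ne hq N c
  rw [mu_eq, gm_succ]
  field_simp
  ring

theorem sum_lt_mu {q : K} (hq : q ≠ 0) (x : Fin N) :
    (q - q⁻¹) * ∑ z : Fin N, (if z < x then mu q N z else 0) = gm q N x - (q ^ N)⁻¹ := by
  have h := tel (N := N) (gm q N) (Nat.zero_le x) x.isLt.le
  rw [gm_zero] at h
  rw [← h, Finset.mul_sum]
  refine Finset.sum_congr rfl fun z _ => ?_
  rw [mul_ite, mul_zero, h_mu hq]
  simp only [Fin.lt_def, Nat.zero_le, true_and]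

theorem sum_gt_mu {q : K} (hq : q ≠ 0) (x : Fin N) :
    (q - q⁻¹) * ∑ z : Fin N, (if x < z then mu q N z else 0) = q ^ N - q ^ 2 * gm q N x := by
  have h := tel (N := N) (gm q N) (show (x : ℕ) + 1 ≤ N from x.isLt) le_rfl
  rw [gm_top hq, gm_succ] at h
  rw [← h, Finset.mul_sum]
  refine Finset.sum_congr rfl fun z _ => ?_
  rw [mul_ite, mul_zero, h_mu hq]
  simp only [Fin.lt_def, Nat.succ_le_iff, z.isLt, and_true]

theorem sum_mid_mu {q : K} (hq : q ≠ 0) {x u : Fin N} (hxu : x < u) :
    (q - q⁻¹) * ∑ z : Fin N, (if x < z ∧ z < u then mu q N z else 0) =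
      gm q N u - q ^ 2 * gm q N x := by
  have h := tel (N := N) (gm q N) (show (x : ℕ) + 1 ≤ u from hxu) u.isLt.le
  rw [gm_succ] at h
  rw [← h, Finset.mul_sum]
  refine Finset.sum_congr rfl fun z _ => ?_
  rw [mul_ite, mul_zero, h_mu hq]
  simp only [Fin.lt_def, Nat.succ_le_iff]

theorem sum_lt_mu_inv {q : K} (hq : q ≠ 0) (x : Fin N) :
    (q - q⁻¹) * ∑ z : Fin N, (if z < x then (mu q N z)⁻¹ else 0) = q ^ N - (gm q N x)⁻¹ := by
  have h := tel (N := N) (fun z => -(gm q N z)⁻¹) (Nat.zero_le x) x.isLt.le
  rw [gm_zero, inv_inv] at h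
  rw [show q ^ N - (gm q N x)⁻¹ = -(gm q N x)⁻¹ - -q ^ N by ring, ← h, Finset.mul_sum]
  refine Finset.sum_congr rfl fun z _ => ?_
  rw [mul_ite, mul_zero, h_mu_inv hq]
  simp only [Fin.lt_def, Nat.zero_le, true_and]

theorem sum_gt_mu_inv {q : K} (hq : q ≠ 0) (x : Fin N) :
    (q - q⁻¹) * ∑ z : Fin N, (if x < z then (mu q N z)⁻¹ else 0) =
      (q ^ 2 * gm q N x)⁻¹ - (q ^ N)⁻¹ := by
  have h := tel (N := N) (fun z => -(gm q N z)⁻¹) (show (x : ℕ) + 1 ≤ N from x.isLt) le_rfl
  rw [gm_top hq, gm_succ] at h
  rw [show (q ^ 2 * gm q N x)⁻¹ - (q ^ N)⁻¹ = -(q ^ N)⁻¹ - -(q ^ 2 * gm q N x)⁻¹ by ring, ← h,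
    Finset.mul_sum]
  refine Finset.sum_congr rfl fun z _ => ?_
  rw [mul_ite, mul_zero, h_mu_inv hq]
  simp only [Fin.lt_def, Nat.succ_le_iff, z.isLt, and_true]

theorem sum_mid_mu_inv {q : K} (hq : q ≠ 0) {x u : Fin N} (hxu : x < u) :
    (q - q⁻¹) * ∑ z : Fin N, (if x < z ∧ z < u then (mu q N z)⁻¹ else 0) =
      (q ^ 2 * gm q N x)⁻¹ - (gm q N u)⁻¹ := by
  have h := tel (N := N) (fun z => -(gm q N z)⁻¹) (show (x : ℕ) + 1 ≤ u from hxu) u.isLt.le
  rw [gm_succ] at h
  rw [show (q ^ 2 * gm q N x)⁻¹ - (gm q N u)⁻¹ = -(gm q N u)⁻¹ - -(q ^ 2 * gm q N x)⁻¹ by ring,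
    ← h, Finset.mul_sum]
  refine Finset.sum_congr rfl fun z _ => ?_
  rw [mul_ite, mul_zero, h_mu_inv hq]
  simp only [Fin.lt_def, Nat.succ_le_iff]

/-! ### curls -/

theorem sum_lab_tt {q : K} (hq : q ≠ 0) (z : Fin N) :
    (q - q⁻¹) * ∑ x, (if lab true x z then cupw q true x * capw q true x else 0) =
      gm q N z - (q ^ N)⁻¹ := by
  rw [← sum_lt_mu hq z]
  simp only [lab, cupw, capw, if_true, mul_one]

theorem sum_lab_ft {q : K} (hq : q ≠ 0) (z : Fin N) :
    (q - q⁻¹) * ∑ x, (if lab false x z then cupw q true x * capw q true x else 0) =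
      q ^ N - q ^ 2 * gm q N z := by
  rw [← sum_gt_mu hq z]
  simp only [lab, cupw, capw, if_true, mul_one, Bool.false_eq_true, if_false]

theorem sum_lab_tf {q : K} (hq : q ≠ 0) (z : Fin N) :
    (q - q⁻¹) * ∑ x, (if lab true x z then cupw q false x * capw q false x else 0) =
      q ^ N - (gm q N z)⁻¹ := by
  rw [← sum_lt_mu_inv hq z]
  simp only [lab, cupw, capw, if_true, one_mul, Bool.false_eq_true, if_false]

theorem sum_lab_ff {q : K} (hq : q ≠ 0) (z : Fin N) :
    (q - q⁻¹) * ∑ x, (if lab false x z then cupw q false x * capw q false x else 0) =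
      (q ^ 2 * gm q N z)⁻¹ - (q ^ N)⁻¹ := by
  rw [← sum_gt_mu_inv hq z]
  simp only [lab, cupw, capw, one_mul, Bool.false_eq_true, if_false]

theorem coef_curlCup {q : K} (hq : q ≠ 0) (o a : Bool) (z : Fin N) :
    cupw q a z * cE q o a (!a) z z + ∑ x, cupw q a x * cB q o a (!a) x x z = cupw q (!a) z := by
  have hN : q ^ N ≠ 0 := pow_ne_zero _ hq
  have hg := gm_ne hq N z
  have e : ∀ x : Fin N, cupw q a x * cB q o a (!a) x x z =
      (nr q N (sgn o a (!a)) * sh q (sgn o a (!a)) * cupw q (!a) z) *
        (if lab (a == o) x z then cupw q a x * capw q a x else 0) := by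
    intro x
    simp only [cB, if_true]
    rw [if_neg (by cases a <;> simp), mul_ite, mul_ite, mul_zero, mul_zero]
    congr 1
    ring
  rw [Finset.sum_congr rfl (fun x _ => e x), ← Finset.mul_sum]
  cases a <;> cases o
  · have h := sum_lab_tf hq z
    have t : sgn false false (!false) = true := rfl
    have t2 : sgn false false true = true := rfl
    have t' : (false == false) = true := rfl
    rw [t, t']
    have u : nr q N true * sh q true * cupw q (!false) z *
      ∑ x, (if lab true x z then cupw q false x * capw q false x else 0) =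
        nr q N true * cupw q (!false) z * ((q - q⁻¹) *
          ∑ x, (if lab true x z then cupw q false x * capw q false x else 0)) := by
      simp only [sh, if_true]; ring
    rw [u, h]
    simp only [cupw, cE, nr, ee, t2, if_true, Bool.not_false, mu_eq, Bool.false_eq_true, if_false]
    field_simp
    ring
  · have h := sum_lab_ff hq z
    have t : sgn true false (!false) = false := rfl
    have t2 : sgn true false true = false := rfl
    have t' : (false == true) = false := rfl
    rw [t, t']
    have u : nr q N false * sh q false * cupw q (!false) z *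
      ∑ x, (if lab false x z then cupw q false x * capw q false x else 0) =
        -(nr q N false * cupw q (!false) z * ((q - q⁻¹) *
          ∑ x, (if lab false x z then cupw q false x * capw q false x else 0))) := by
      simp only [sh, Bool.false_eq_true, if_false]; ring
    rw [u, h]
    simp only [cupw, cE, nr, ee, t2, if_true, Bool.not_false, mu_eq, Bool.false_eq_true, if_false]
    field_simp
    ring
  · have h := sum_lab_ft hq z
    have t : sgn false true (!true) = true := rfl
    have t2 : sgn false true false = true := rfl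
    have t' : (true == false) = false := rfl
    rw [t, t']
    have u : nr q N true * sh q true * cupw q (!true) z *
      ∑ x, (if lab false x z then cupw q true x * capw q true x else 0) =
        (nr q N true * cupw q (!true) z * ((q - q⁻¹) *
          ∑ x, (if lab false x z then cupw q true x * capw q true x else 0))) := by
      simp only [sh, if_true]; ring
    rw [u, h]
    simp only [cupw, cE, nr, ee, t2, if_true, Bool.not_true, mu_eq, Bool.false_eq_true, if_false]
    field_simp
    ring
  · have h := sum_lab_tt hq z
    have t : sgn true true (!true) = false := rfl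
    have t2 : sgn true true false = false := rfl
    have t' : (true == true) = true := rfl
    rw [t, t']
    have u : nr q N false * sh q false * cupw q (!true) z *
      ∑ x, (if lab true x z then cupw q true x * capw q true x else 0) =
        -(nr q N false * cupw q (!true) z * ((q - q⁻¹) *
          ∑ x, (if lab true x z then cupw q true x * capw q true x else 0))) := by
      simp only [sh, Bool.false_eq_true, if_false]; ring
    rw [u, h]
    simp only [cupw, cE, nr, ee, t2, if_true, Bool.not_true, mu_eq, Bool.false_eq_true, if_false]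
    field_simp
    ring

theorem lab_flip (p : Bool) (x z : Fin N) : lab p x z ↔ lab (!p) z x := by
  cases p <;> rfl

theorem coef_curlCap {q : K} (hq : q ≠ 0) (o a : Bool) (x : Fin N) :
    cE q o a (!a) x x * capw q (!a) x + ∑ z, cB q o a (!a) x x z * capw q (!a) z =
      capw q a x := by
  have hN : q ^ N ≠ 0 := pow_ne_zero _ hq
  have hg := gm_ne hq N x
  have e : ∀ z : Fin N, cB q o a (!a) x x z * capw q (!a) z =
      (nr q N (sgn o a (!a)) * sh q (sgn o a (!a)) * capw q a x) *
        (if lab (!(a == o)) z x then cupw q (!a) z * capw q (!a) z else 0) := by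
    intro z
    simp only [cB, if_true]
    rw [if_neg (by cases a <;> simp), mul_ite, ite_mul, mul_zero, zero_mul]
    have hl : lab (a == o) x z ↔ lab (!(a == o)) z x := lab_flip _ _ _
    by_cases h : lab (a == o) x z
    · rw [if_pos h, if_pos (hl.mp h)]
      ring
    · rw [if_neg h, if_neg (fun h' => h (hl.mpr h'))]
  rw [Finset.sum_congr rfl (fun x _ => e x), ← Finset.mul_sum]
  cases a <;> cases o
  · have h := sum_lab_ft hq x
    have t : sgn false false (!false) = true := rfl
    have t2 : sgn false false true = true := rfl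
    have t' : (!(false == false)) = false := rfl
    rw [t, t']
    have u : nr q N true * sh q true * capw q false x *
      ∑ z, (if lab false z x then cupw q (!false) z * capw q (!false) z else 0) =
        nr q N true * capw q false x * ((q - q⁻¹) *
          ∑ z, (if lab false z x then cupw q true z * capw q true z else 0)) := by
      simp only [sh, if_true, Bool.not_false]; ring
    rw [u, h]
    simp only [capw, cE, nr, ee, t2, if_true, Bool.not_false, mu_eq, Bool.false_eq_true, if_false]
    field_simp
    ring
  · have h := sum_lab_tt hq x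
    have t : sgn true false (!false) = false := rfl
    have t2 : sgn true false true = false := rfl
    have t' : (!(false == true)) = true := rfl
    rw [t, t']
    have u : nr q N false * sh q false * capw q false x *
      ∑ z, (if lab true z x then cupw q (!false) z * capw q (!false) z else 0) =
        -(nr q N false * capw q false x * ((q - q⁻¹) *
          ∑ z, (if lab true z x then cupw q true z * capw q true z else 0))) := by
      simp only [sh, Bool.false_eq_true, if_false, Bool.not_false]; ring
    rw [u, h]
    simp only [capw, cE, nr, ee, t2, if_true, Bool.not_false, mu_eq, Bool.false_eq_true, if_false]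
    field_simp
    ring
  · have h := sum_lab_tf hq x
    have t : sgn false true (!true) = true := rfl
    have t2 : sgn false true false = true := rfl
    have t' : (!(true == false)) = true := rfl
    rw [t, t']
    have u : nr q N true * sh q true * capw q true x *
      ∑ z, (if lab true z x then cupw q (!true) z * capw q (!true) z else 0) =
        (nr q N true * capw q true x * ((q - q⁻¹) *
          ∑ z, (if lab true z x then cupw q false z * capw q false z else 0))) := by
      simp only [sh, if_true, Bool.not_true]; ring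
    rw [u, h]
    simp only [capw, cE, nr, ee, t2, if_true, Bool.not_true, mu_eq, Bool.false_eq_true, if_false]
    field_simp
    ring
  · have h := sum_lab_ff hq x
    have t : sgn true true (!true) = false := rfl
    have t2 : sgn true true false = false := rfl
    have t' : (!(true == true)) = false := rfl
    rw [t, t']
    have u : nr q N false * sh q false * capw q true x *
      ∑ z, (if lab false z x then cupw q (!true) z * capw q (!true) z else 0) =
        -(nr q N false * capw q true x * ((q - q⁻¹) *
          ∑ z, (if lab false z x then cupw q false z * capw q false z else 0))) := by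
      simp only [sh, Bool.false_eq_true, if_false, Bool.not_true]; ring
    rw [u, h]
    simp only [capw, cE, nr, ee, t2, if_true, Bool.not_true, mu_eq, Bool.false_eq_true, if_false]
    field_simp
    ring

theorem cA_anti (q : K) (o a : Bool) (x y : Fin N) : cA q o a (!a) x y = 0 := by
  cases a <;> simp [cA]

theorem cB_par (q : K) (o a : Bool) (x y z : Fin N) : cB q o a a x y z = 0 := by
  simp [cB]

theorem crF_curlCup {q : K} (hq : q ≠ 0) (o a : Bool) (g : Fin N → Fin N → K) :
    ∑ x, cupw q a x * crF q o a (!a) x x g = ∑ x, cupw q (!a) x * g x x := by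
  simp only [crF, cA_anti, zero_mul, add_zero, mul_add, Finset.sum_add_distrib]
  have h2 : ∑ x, cupw q a x * ∑ z, cB q o a (!a) x x z * g z z =
      ∑ z, (∑ x, cupw q a x * cB q o a (!a) x x z) * g z z := by
    simp only [Finset.mul_sum, Finset.sum_mul]
    rw [Finset.sum_comm]
    refine Finset.sum_congr rfl fun x _ => Finset.sum_congr rfl fun z _ => ?_
    ring
  rw [h2, ← Finset.sum_add_distrib]
  refine Finset.sum_congr rfl fun x _ => ?_
  rw [← coef_curlCup hq o a x]
  ring

theorem crF_curlCap {q : K} (hq : q ≠ 0) (o a : Bool) (x y : Fin N) (v : K) :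
    crF q o a (!a) x y (fun z w => if z = w then capw q (!a) z * v else 0) =
      if x = y then capw q a x * v else 0 := by
  simp only [crF, cA_anti, zero_mul, add_zero, if_true]
  by_cases h : x = y
  · subst h
    simp only [if_true]
    rw [← coef_curlCap hq o a x, add_mul, Finset.sum_mul]
    congr 1
    · ring
    · refine Finset.sum_congr rfl fun z _ => ?_
      ring
  · rw [if_neg h, if_neg (Ne.symm h)]
    simp [cB_ne q _ _ _ h]

/-! ### skein relation, circle -/

theorem crF_skein_par {q : K} (hq : q ≠ 0) (a : Bool) (x y : Fin N) (g : Fin N → Fin N → K) :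
    q ^ N * crF q true a a x y g - (q⁻¹) ^ N * crF q false a a x y g = (q - q⁻¹) * g x y := by
  have hN : q ^ N ≠ 0 := pow_ne_zero _ hq
  rw [inv_pow]
  simp only [crF, cB_par, zero_mul, Finset.sum_const_zero, add_zero]
  rcases lt_trichotomy x y with hxy | hxy | hxy
  · have h1 := ne_of_lt hxy
    have h3 := not_lt_of_gt hxy
    cases a <;> simp [cE, cA, lab, sgn, sh, nr, hxy, h1, h3] <;> field_simp <;> ring
  · subst hxy
    cases a <;> simp [cE, cA, lab, sgn, ee, nr] <;> field_simp
  · have h1 := (ne_of_lt hxy).symm
    have h3 := not_lt_of_gt hxy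
    cases a <;> simp [cE, cA, lab, sgn, sh, nr, hxy, h1, h3] <;> field_simp <;> ring

theorem crF_skein_anti {q : K} (hq : q ≠ 0) (a : Bool) (x y : Fin N) (g : Fin N → Fin N → K) :
    q ^ N * crF q false a (!a) x y g - (q⁻¹) ^ N * crF q true a (!a) x y g =
      (q - q⁻¹) * (if x = y then capw q a x * ∑ z, cupw q (!a) z * g z z else 0) := by
  have hN : q ^ N ≠ 0 := pow_ne_zero _ hq
  rw [inv_pow]
  simp only [crF, cA_anti, zero_mul, add_zero]
  by_cases h : x = y
  · subst h
    rw [if_pos rfl]
    have e1 : ∀ z, q ^ N * (cB q false a (!a) x x z * g z z) -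
        (q ^ N)⁻¹ * (cB q true a (!a) x x z * g z z) =
        if z = x then 0 else (q - q⁻¹) * (capw q a x * (cupw q (!a) z * g z z)) := by
      intro z
      rcases lt_trichotomy x z with hxy | hxy | hxy
      · have h1 := (ne_of_lt hxy).symm
        have h3 := not_lt_of_gt hxy
        cases a <;> simp [cB, lab, sgn, sh, nr, hxy, h1, h3] <;> field_simp <;> ring
      · subst hxy
        cases a <;> simp [cB, lab]
      · have h1 := (ne_of_lt hxy)
        have h3 := not_lt_of_gt hxy
        cases a <;> simp [cB, lab, sgn, sh, nr, hxy, h1, h3] <;> field_simp <;> ring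
    have e2 : q ^ N * ∑ z, cB q false a (!a) x x z * g z z -
        (q ^ N)⁻¹ * ∑ z, cB q true a (!a) x x z * g z z =
        (q - q⁻¹) * (capw q a x * ∑ z, cupw q (!a) z * g z z) -
          (q - q⁻¹) * (capw q a x * (cupw q (!a) x * g x x)) := by
      rw [Finset.mul_sum, Finset.mul_sum, ← Finset.sum_sub_distrib,
        Finset.sum_congr rfl (fun z _ => e1 z)]
      rw [← Finset.add_sum_erase _ _ (Finset.mem_univ x),
        ← Finset.add_sum_erase _ (fun z => cupw q (!a) z * g z z) (Finset.mem_univ x)]
      rw [if_pos rfl, mul_add, mul_add, Finset.mul_sum, Finset.mul_sum]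
      rw [Finset.sum_congr rfl (fun z hz => if_neg (Finset.ne_of_mem_erase hz))]
      ring
    have e3 := cap_cup hq a x
    have e4 : q ^ N * cE q false a (!a) x x - (q ^ N)⁻¹ * cE q true a (!a) x x = q - q⁻¹ := by
      cases a <;> simp [cE, sgn, ee, nr] <;> field_simp
    linear_combination e2 + g x x * e4 - (q - q⁻¹) * g x x * e3
  · rw [if_neg h]
    simp only [cB_ne q _ _ _ h, zero_mul, Finset.sum_const_zero, add_zero]
    cases a <;> simp [cE, sgn, nr, h] <;> field_simp <;> ring

theorem circle_sum {q : K} (hq : q ≠ 0) :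
    (q - q⁻¹) * ∑ x : Fin N, cupw q true x * capw q true x = q ^ N - (q⁻¹) ^ N := by
  have h := tel (N := N) (gm q N) (Nat.zero_le N) le_rfl
  rw [gm_top hq, gm_zero] at h
  rw [inv_pow, ← h, Finset.mul_sum]
  refine Finset.sum_congr rfl fun z _ => ?_
  simp only [cupw, capw, if_true, mul_one, h_mu hq, Nat.zero_le, z.isLt, and_self]

/-! ### second Reidemeister move, antiparallel strands -/

theorem mid_tt {q : K} (hq : q ≠ 0) {x u : Fin N} (hxu : x < u) :
    (q - q⁻¹) * ∑ z, (if x < z ∧ z < u then cupw q true z * capw q true z else 0) =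
      gm q N u - q ^ 2 * gm q N x := by
  rw [← sum_mid_mu hq hxu]
  simp only [cupw, capw, if_true, mul_one]

theorem mid_ff {q : K} (hq : q ≠ 0) {x u : Fin N} (hxu : x < u) :
    (q - q⁻¹) * ∑ z, (if x < z ∧ z < u then cupw q false z * capw q false z else 0) =
      (q ^ 2 * gm q N x)⁻¹ - (gm q N u)⁻¹ := by
  rw [← sum_mid_mu_inv hq hxu]
  simp only [cupw, capw, one_mul, Bool.false_eq_true, if_false]

theorem coef_r2 {q : K} (hq : q ≠ 0) (o a : Bool) (x u : Fin N) :
    (if u = x then cE q o a (!a) x x * cE q (!o) (!a) a x x else 0) +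
      cE q o a (!a) x x * cB q (!o) (!a) a x x u + cB q o a (!a) x x u * cE q (!o) (!a) a u u +
      ∑ z, cB q o a (!a) x x z * cB q (!o) (!a) a z z u = if u = x then 1 else 0 := by
  have hN : q ^ N ≠ 0 := pow_ne_zero _ hq
  have hgx := gm_ne hq N x
  have hgu := gm_ne hq N u
  have hs : sgn (!o) (!a) a = !sgn o a (!a) := by cases o <;> cases a <;> rfl
  have ho : ((!a) == !o) = (a == o) := by cases o <;> cases a <;> rfl
  have hn : nr q N (sgn o a (!a)) * nr q N (!sgn o a (!a)) = 1 := by
    cases sgn o a (!a) <;> simp [nr, hN]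
  have hsh : sh q (sgn o a (!a)) * sh q (!sgn o a (!a)) = -((q - q⁻¹) * (q - q⁻¹)) := by
    cases sgn o a (!a) <;> simp [sh] <;> ring
  have e : ∀ z, cB q o a (!a) x x z * cB q (!o) (!a) a z z u =
      (-((q - q⁻¹) * (capw q a x * cupw q a u))) * ((q - q⁻¹) *
        (if lab (a == o) x z ∧ lab (a == o) z u then cupw q (!a) z * capw q (!a) z else 0)) := by
    intro z
    have hne : ¬ a = !a := by cases a <;> simp
    have hne' : ¬ (!a) = a := by cases a <;> simp
    simp only [cB, if_true, if_neg hne, if_neg hne', hs, ho]
    by_cases h1 : lab (a == o) x z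
    · by_cases h2 : lab (a == o) z u
      · rw [if_pos h1, if_pos h2, if_pos ⟨h1, h2⟩]
        linear_combination (capw q a x * cupw q (!a) z * capw q (!a) z * cupw q a u) *
          (sh q (sgn o a (!a)) * sh q (!sgn o a (!a)) * hn + hsh)
      · have h3 : ¬ (lab (a == o) x z ∧ lab (a == o) z u) := fun h => h2 h.2
        rw [if_neg h2, if_neg h3]
        simp
    · have h3 : ¬ (lab (a == o) x z ∧ lab (a == o) z u) := fun h => h1 h.1
      rw [if_neg h1, if_neg h3]
      simp
  rw [Finset.sum_congr rfl (fun z _ => e z), ← Finset.mul_sum, ← Finset.mul_sum]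
  have hee : ee q (sgn o a (!a)) * ee q (!sgn o a (!a)) = 1 := by
    cases sgn o a (!a) <;> simp [ee, hq]
  have c1 : cE q o a (!a) x x * cE q (!o) (!a) a x x = 1 := by
    simp only [cE, if_true, hs]
    linear_combination (ee q (sgn o a (!a)) * ee q (!sgn o a (!a))) * hn + hee
  rw [c1]
  by_cases hl : lab (a == o) x u
  · have hxu : u ≠ x := by
      rintro rfl
      cases h : (a == o) <;> simp [h, lab] at hl
    rw [if_neg hxu]
    have c2 : cE q o a (!a) x x * cB q (!o) (!a) a x x u =
        ee q (sgn o a (!a)) * sh q (!sgn o a (!a)) * (capw q (!a) x * cupw q a u) := by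
      have hne' : ¬ (!a) = a := by cases a <;> simp
      simp only [cE, cB, if_true, hs, ho, if_neg hne', if_pos hl]
      linear_combination (ee q (sgn o a (!a)) * sh q (!sgn o a (!a)) *
        (capw q (!a) x * cupw q a u)) * hn
    have c3 : cB q o a (!a) x x u * cE q (!o) (!a) a u u =
        sh q (sgn o a (!a)) * ee q (!sgn o a (!a)) * (capw q a x * cupw q (!a) u) := by
      have hne : ¬ a = (!a) := by cases a <;> simp
      simp only [cE, cB, if_true, hs, if_neg hne, if_pos hl]
      linear_combination (ee q (!sgn o a (!a)) * sh q (sgn o a (!a)) *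
        (capw q a x * cupw q (!a) u)) * hn
    rw [c2, c3]
    cases a <;> cases o
    · -- a = false, o = false: lab true
      have hlt : x < u := hl
      have h := mid_tt hq hlt
      have e3 : (false == false) = true := rfl
      have e4 : sgn false false true = true := rfl
      simp only [Bool.not_false, e3, lab, if_true, e4, Bool.not_true]
      rw [h]
      simp only [capw, cupw, ee, sh, mu_eq, if_true, Bool.false_eq_true, if_false]
      field_simp
      ring
    · have hlt : u < x := hl
      have h := mid_tt hq hlt
      have e3 : (false == true) = false := rfl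
      have e4 : sgn true false true = false := rfl
      simp only [Bool.not_false, e3, lab, if_true, e4, Bool.false_eq_true, if_false]
      simp only [and_comm (a := _ < x)]
      rw [h]
      simp only [capw, cupw, ee, sh, mu_eq, if_true, Bool.false_eq_true, if_false]
      field_simp
      ring
    · have hlt : u < x := hl
      have h := mid_ff hq hlt
      have e3 : (true == false) = false := rfl
      have e4 : sgn false true false = true := rfl
      simp only [Bool.not_true, e3, lab, if_true, e4, Bool.false_eq_true, if_false]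
      simp only [and_comm (a := _ < x)]
      rw [h]
      simp only [capw, cupw, ee, sh, mu_eq, if_true, Bool.false_eq_true, if_false]
      field_simp
      ring
    · have hlt : x < u := hl
      have h := mid_ff hq hlt
      have e3 : (true == true) = true := rfl
      have e4 : sgn true true false = false := rfl
      simp only [Bool.not_true, Bool.not_false, e3, lab, if_true, e4]
      rw [h]
      simp only [capw, cupw, ee, sh, mu_eq, if_true, Bool.false_eq_true, if_false]
      field_simp
      ring
  · have c2 : cB q (!o) (!a) a x x u = 0 := by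
      simp only [cB, ho, if_neg hl, ite_self]
    have c3 : cB q o a (!a) x x u = 0 := by
      simp only [cB, if_neg hl, ite_self]
    have c4 : ∑ z, (if lab (a == o) x z ∧ lab (a == o) z u then cupw q (!a) z * capw q (!a) z
        else 0) = 0 := by
      refine Finset.sum_eq_zero fun z _ => if_neg ?_
      rintro ⟨h1, h2⟩
      apply hl
      revert h1 h2
      cases (a == o)
      · intro h1 h2
        exact lt_trans h2 h1
      · intro h1 h2
        exact lt_trans h1 h2
    rw [c2, c3, c4]
    simp

theorem crF_r2_anti {q : K} (hq : q ≠ 0) (o a : Bool) (x y : Fin N) (g : Fin N → Fin N → K) :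
    crF q o a (!a) x y (fun z w => crF q (!o) (!a) a z w g) = g x y := by
  have hN : q ^ N ≠ 0 := pow_ne_zero _ hq
  have hs : sgn (!o) (!a) a = !sgn o a (!a) := by cases o <;> cases a <;> rfl
  have hn : nr q N (sgn o a (!a)) * nr q N (!sgn o a (!a)) = 1 := by
    cases sgn o a (!a) <;> simp [nr, hN]
  have hA : ∀ z w : Fin N, cA q (!o) (!a) a z w = 0 := by
    intro z w
    have := cA_anti q (!o) (!a) z w
    rwa [Bool.not_not] at this
  simp only [crF, cA_anti, hA, zero_mul, add_zero]
  by_cases h : x = y
  · subst h
    have e : cE q o a (!a) x x * (cE q (!o) (!a) a x x * g x x +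
          ∑ z, cB q (!o) (!a) a x x z * g z z) +
        ∑ z, cB q o a (!a) x x z * (cE q (!o) (!a) a z z * g z z +
          ∑ u, cB q (!o) (!a) a z z u * g u u) =
        ∑ u, ((if u = x then cE q o a (!a) x x * cE q (!o) (!a) a x x else 0) +
          cE q o a (!a) x x * cB q (!o) (!a) a x x u +
          cB q o a (!a) x x u * cE q (!o) (!a) a u u +
          ∑ z, cB q o a (!a) x x z * cB q (!o) (!a) a z z u) * g u u := by
      have s1 : ∑ z, cB q o a (!a) x x z * ∑ u, cB q (!o) (!a) a z z u * g u u =
          ∑ u, (∑ z, cB q o a (!a) x x z * cB q (!o) (!a) a z z u) * g u u := by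
        simp only [Finset.mul_sum, Finset.sum_mul]
        rw [Finset.sum_comm]
        refine Finset.sum_congr rfl fun u _ => Finset.sum_congr rfl fun z _ => ?_
        ring
      simp only [mul_add, add_mul, Finset.sum_add_distrib, ite_mul, zero_mul,
        Finset.sum_ite_eq', Finset.mem_univ, if_true]
      rw [s1]
      simp only [Finset.mul_sum, mul_assoc]
      ring
    rw [e]
    simp only [coef_r2 hq, ite_mul, one_mul, zero_mul, Finset.sum_ite_eq', Finset.mem_univ,
      if_true]
  · have h' := Ne.symm h
    simp only [cB_ne q _ _ _ h, cB_ne q _ _ _ h', zero_mul, Finset.sum_const_zero, add_zero]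
    simp only [cE, if_neg h, if_neg h', hs]
    linear_combination g x y * hn

theorem crF_r2 {q : K} (hq : q ≠ 0) (o a b : Bool) (x y : Fin N) (g : Fin N → Fin N → K) :
    crF q o a b x y (fun z w => crF q (!o) b a z w g) = g x y := by
  by_cases h : b = a
  · subst h
    exact crF_r2_par hq o b x y g
  · have : b = !a := by revert h; cases a <;> cases b <;> simp
    subst this
    exact crF_r2_anti hq o a x y g

/-! ### third Reidemeister move, all strands upwards, all crossings positive -/

theorem crF_up (q : K) (x y : Fin N) (g : Fin N → Fin N → K) :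
    crF q true true true x y g = (q ^ N)⁻¹ * ((if x = y then q else 1) * g y x +
      (if x < y then (q - q⁻¹) * g x y else 0)) := by
  simp only [crF, cB_par, zero_mul, Finset.sum_const_zero, add_zero]
  have e : sgn true true true = true := rfl
  simp only [cE, cA, lab, nr, sh, ee, e, if_true, beq_self_eq_true]
  split_ifs <;> ring

theorem crF_r3 {q : K} (hq : q ≠ 0) (x y z : Fin N) (g : Fin N → Fin N → Fin N → K) :
    crF q true true true x y (fun x y => crF q true true true y z (fun y z =>
      crF q true true true x y (fun x y => g x y z))) =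
    crF q true true true y z (fun y z => crF q true true true x y (fun x y =>
      crF q true true true y z (fun y z => g x y z))) := by
  simp only [crF_up]
  rcases lt_trichotomy x y with h1 | h1 | h1
  · have a1 := h1.ne
    have a2 := h1.ne'
    have a3 := not_lt_of_gt h1
    rcases lt_trichotomy y z with h2 | h2 | h2
    · have h3 := lt_trans h1 h2
      have b1 := h2.ne
      have b2 := h2.ne'
      have b3 := not_lt_of_gt h2
      have c1 := h3.ne
      have c2 := h3.ne'
      have c3 := not_lt_of_gt h3
      simp [-mul_eq_mul_left_iff, h1, h2, h3, a1, a2, a3, b1, b2, b3, c1, c2, c3]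
      ring
    · subst h2
      simp [-mul_eq_mul_left_iff, h1, a1, a2, a3]
      field_simp
      ring
    · have b1 := h2.ne
      have b2 := h2.ne'
      have b3 := not_lt_of_gt h2
      rcases lt_trichotomy x z with h3 | h3 | h3
      · have c1 := h3.ne
        have c2 := h3.ne'
        have c3 := not_lt_of_gt h3
        simp [-mul_eq_mul_left_iff, h1, h2, h3, a1, a2, a3, b1, b2, b3, c1, c2, c3]
        ring
      · subst h3
        simp [-mul_eq_mul_left_iff, h1, a1, a2, a3]
        field_simp
      · have c1 := h3.ne
        have c2 := h3.ne'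
        have c3 := not_lt_of_gt h3
        simp [-mul_eq_mul_left_iff, h1, h2, h3, a1, a2, a3, b1, b2, b3, c1, c2, c3]
        ring
  · subst h1
    rcases lt_trichotomy x z with h3 | h3 | h3
    · have c1 := h3.ne
      have c2 := h3.ne'
      have c3 := not_lt_of_gt h3
      simp [-mul_eq_mul_left_iff, h3, c1, c2, c3]
      field_simp
      ring
    · subst h3
      simp
    · have c1 := h3.ne
      have c2 := h3.ne'
      have c3 := not_lt_of_gt h3
      simp [-mul_eq_mul_left_iff, h3, c1, c2, c3]
      ring
  · have a1 := h1.ne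
    have a2 := h1.ne'
    have a3 := not_lt_of_gt h1
    rcases lt_trichotomy y z with h2 | h2 | h2
    · have b1 := h2.ne
      have b2 := h2.ne'
      have b3 := not_lt_of_gt h2
      rcases lt_trichotomy x z with h3 | h3 | h3
      · have c1 := h3.ne
        have c2 := h3.ne'
        have c3 := not_lt_of_gt h3
        simp [-mul_eq_mul_left_iff, h1, h2, h3, a1, a2, a3, b1, b2, b3, c1, c2, c3]
        ring
      · subst h3
        simp [-mul_eq_mul_left_iff, h1, a1, a2, a3]
        field_simp
      · have c1 := h3.ne
        have c2 := h3.ne'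
        have c3 := not_lt_of_gt h3
        simp [-mul_eq_mul_left_iff, h1, h2, h3, a1, a2, a3, b1, b2, b3, c1, c2, c3]
        ring
    · subst h2
      simp [-mul_eq_mul_left_iff, h1, a1, a2, a3]
      ring
    · have h3 := lt_trans h2 h1
      have b1 := h2.ne
      have b2 := h2.ne'
      have b3 := not_lt_of_gt h2
      have c1 := h3.ne
      have c2 := h3.ne'
      have c3 := not_lt_of_gt h3
      simp [-mul_eq_mul_left_iff, h1, h2, h3, a1, a2, a3, b1, b2, b3, c1, c2, c3]

end

end Helper99.GLN
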