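import Pool.Agent.Helper26.WD.Runs
import Pool.Agent.Helper99.GLN.Local

/-!
# The `gl_N` state sum: operators of pieces and words
-/

namespace Helper99.GLN

open Pool.Agent.Helper26.WD Pool.Agent.Helper26.WD.Piece

noncomputable section

variable {K : Type*} [Field K] {N : ℕ}

/-- Coloured states: lists of directions and labels. -/
abbrev St (N : ℕ) : Type := List (Bool × Fin N)

/-- The directions of a coloured state. -/
def dirs (s : St N) : List Bool := s.map Prod.fst

@[simp] theorem dirs_nil : dirs ([] : St N) = [] := rfl

@[simp] theorem dirs_cons (c : Bool × Fin N) (s : St N) : dirs (c :: s) = c.1 :: dirs s := rfl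

/-- local minimum at position `0` -/
def cupL (q : K) (a : Bool) : (St N → K) →ₗ[K] (St N → K) where
  toFun V := fun s => ∑ c, cupw q a c * V ((a, c) :: (!a, c) :: s)
  map_add' V W := by
    funext s
    simp [mul_add, Finset.sum_add_distrib]
  map_smul' r V := by
    funext s
    simp only [Pi.smul_apply, smul_eq_mul, RingHom.id_apply, Finset.mul_sum]
    exact Finset.sum_congr rfl fun c _ => by ring

/-- local maximum at position `0`, as a function -/
def capF (q : K) (V : St N → K) : St N → K
  | (a, x) :: (b, y) :: t => if b = !a then (if x = y then capw q a x * V t else 0) else 0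
  | _ => 0

/-- local maximum at position `0` -/
def capL (q : K) : (St N → K) →ₗ[K] (St N → K) where
  toFun := capF q
  map_add' V W := by
    funext s
    match s with
    | [] => simp [capF]
    | [c] => simp [capF]
    | (a, x) :: (b, y) :: t =>
      simp only [capF, Pi.add_apply]
      split_ifs <;> ring
  map_smul' r V := by
    funext s
    match s with
    | [] => simp [capF]
    | [c] => simp [capF]
    | (a, x) :: (b, y) :: t =>
      simp only [capF, Pi.smul_apply, smul_eq_mul, RingHom.id_apply]
      split_ifs <;> ring

/-- crossing at position `0`, as a function -/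
def crG (q : K) (o : Bool) (V : St N → K) : St N → K
  | (a, x) :: (b, y) :: t => crF q o a b x y (fun z w => V ((b, z) :: (a, w) :: t))
  | _ => 0

/-- crossing at position `0` -/
def crL (q : K) (o : Bool) : (St N → K) →ₗ[K] (St N → K) where
  toFun := crG q o
  map_add' V W := by
    funext s
    match s with
    | [] => simp [crG]
    | [c] => simp [crG]
    | (a, x) :: (b, y) :: t =>
      simp only [crG, Pi.add_apply, crF, mul_add, Finset.sum_add_distrib]
      ring
  map_smul' r V := by
    funext s
    match s with
    | [] => simp [crG]
    | [c] => simp [crG]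
    | (a, x) :: (b, y) :: t =>
      simp only [crG, Pi.smul_apply, smul_eq_mul, RingHom.id_apply, crF, mul_add,
        Finset.mul_sum]
      congr 1
      · ring
      · exact Finset.sum_congr rfl fun c _ => by ring

/-- moving an operator to the right, as a function -/
def upF (A : (St N → K) →ₗ[K] (St N → K)) (V : St N → K) : St N → K
  | [] => 0
  | c :: s => A (fun t => V (c :: t)) s

/-- moving an operator to the right -/
def upL (A : (St N → K) →ₗ[K] (St N → K)) : (St N → K) →ₗ[K] (St N → K) where
  toFun := upF A
  map_add' V W := by
    funext s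
    match s with
    | [] => simp [upF]
    | c :: s =>
      change A ((fun t => V (c :: t)) + (fun t => W (c :: t))) s =
        A (fun t => V (c :: t)) s + A (fun t => W (c :: t)) s
      rw [map_add]
      rfl
  map_smul' r V := by
    funext s
    match s with
    | [] => simp [upF]
    | c :: s =>
      change A (r • (fun t => V (c :: t))) s = r • A (fun t => V (c :: t)) s
      rw [map_smul]
      rfl

/-- the operator at position `n` -/
def atL (A : (St N → K) →ₗ[K] (St N → K)) : ℕ → ((St N → K) →ₗ[K] (St N → K))
  | 0 => A
  | n + 1 => upL (atL A n)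

/-- the operator of a piece -/
def pc (q : K) : Piece Bool → ((St N → K) →ₗ[K] (St N → K))
  | cup i a => atL (cupL q a) i
  | cap i => atL (capL q) i
  | cr i o => atL (crL q o) i

/-- the operator of a word -/
def act (q : K) : List (Piece Bool) → (St N → K) → (St N → K)
  | [], V => V
  | p :: D, V => pc q p (act q D V)

theorem act_nil (q : K) (V : St N → K) : act q [] V = V := rfl

theorem act_cons (q : K) (p : Piece Bool) (D : List (Piece Bool)) (V : St N → K) :
    act q (p :: D) V = pc q p (act q D V) := rfl

theorem act_append (q : K) (D E : List (Piece Bool)) (V : St N → K) :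
    act q (D ++ E) V = act q D (act q E V) := by
  induction D with
  | nil => rfl
  | cons p D ih => rw [List.cons_append, act_cons, act_cons, ih]

theorem pc_shift (q : K) (p : Piece Bool) :
    (pc q (p.shift 1) : (St N → K) →ₗ[K] (St N → K)) = upL (pc q p) := by
  cases p <;> rfl

theorem pc_shift_cons (q : K) (p : Piece Bool) (V : St N → K) (c : Bool × Fin N) (s : St N) :
    pc q (p.shift 1) V (c :: s) = pc q p (fun t => V (c :: t)) s := by
  rw [pc_shift]; rfl

theorem pc_shift_nil (q : K) (p : Piece Bool) (V : St N → K) : pc q (p.shift 1) V [] = 0 := by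
  rw [pc_shift]; rfl

theorem pc_shift_two (q : K) (p : Piece Bool) (V : St N → K) (c d : Bool × Fin N) (s : St N) :
    pc q (p.shift 2) V (c :: d :: s) = pc q p (fun t => V (c :: d :: t)) s := by
  rw [show p.shift 2 = (p.shift 1).shift 1 by rw [shift_shift], pc_shift_cons, pc_shift_cons]

theorem pc_shift_short (q : K) (p : Piece Bool) (V : St N → K) (k : ℕ) (s : St N)
    (h : s.length < k) : pc q (p.shift k) V s = 0 := by
  induction k generalizing s V with
  | zero => omega
  | succ k ih =>
    rw [show p.shift (k + 1) = (p.shift k).shift 1 by rw [shift_shift]]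
    match s with
    | [] => rw [pc_shift_nil]
    | c :: s =>
      rw [pc_shift_cons]
      exact ih _ s (by simpa using h)

theorem pc_cup (q : K) (a : Bool) (V : St N → K) (s : St N) :
    pc q (cup 0 a) V s = ∑ c, cupw q a c * V ((a, c) :: (!a, c) :: s) := rfl

theorem pc_cap (q : K) (V : St N → K) (a b : Bool) (x y : Fin N) (t : St N) :
    pc q (cap 0) V ((a, x) :: (b, y) :: t) =
      if b = !a then (if x = y then capw q a x * V t else 0) else 0 := rfl

theorem pc_cr (q : K) (o : Bool) (V : St N → K) (a b : Bool) (x y : Fin N) (t : St N) :
    pc q (cr 0 o) V ((a, x) :: (b, y) :: t) =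
      crF q o a b x y (fun z w => V ((b, z) :: (a, w) :: t)) := rfl

theorem pc_cap_nil (q : K) (V : St N → K) : pc q (cap 0) V [] = 0 := rfl
theorem pc_cap_one (q : K) (V : St N → K) (c : Bool × Fin N) : pc q (cap 0) V [c] = 0 := rfl
theorem pc_cr_nil (q : K) (o : Bool) (V : St N → K) : pc q (cr 0 o) V [] = 0 := rfl
theorem pc_cr_one (q : K) (o : Bool) (V : St N → K) (c : Bool × Fin N) :
    pc q (cr 0 o) V [c] = 0 := rfl

theorem cup_succ (i : ℕ) (a : Bool) : (cup (i + 1) a : Piece Bool) = (cup i a).shift 1 := rfl
theorem cap_succ (i : ℕ) : (cap (i + 1) : Piece Bool) = (cap i).shift 1 := rfl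
theorem cr_succ (i : ℕ) (o : Bool) : (cr (i + 1) o : Piece Bool) = (cr i o).shift 1 := rfl

/-! ### locality -/

theorem pc_congr (q : K) (p : Piece Bool) (s : St N) (V V' : St N → K)
    (h : ∀ t, step p (dirs s) = some (dirs t) → V t = V' t) : pc q p V s = pc q p V' s := by
  obtain ⟨n, hn⟩ : ∃ n, n = p.pos := ⟨_, rfl⟩
  induction n generalizing p s V V' with
  | zero =>
    cases p with
    | cup i a =>
      obtain rfl : i = 0 := hn.symm
      rw [pc_cup, pc_cup]
      refine Finset.sum_congr rfl fun c _ => ?_
      rw [h ((a, c) :: (!a, c) :: s)]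
      rw [step_cup_zero]
      rfl
    | cap i =>
      obtain rfl : i = 0 := hn.symm
      match s with
      | [] => rfl
      | [c] => rfl
      | (a, x) :: (b, y) :: t =>
        rw [pc_cap, pc_cap]
        by_cases hb : b = !a
        · rw [if_pos hb, if_pos hb, h t]
          rw [dirs_cons, dirs_cons, step_cap_zero]
          exact if_pos hb
        · rw [if_neg hb, if_neg hb]
    | cr i o =>
      obtain rfl : i = 0 := hn.symm
      match s with
      | [] => rfl
      | [c] => rfl
      | (a, x) :: (b, y) :: t =>
        rw [pc_cr, pc_cr]
        refine crF_congr _ _ _ _ _ _ fun z w => h _ ?_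
        rw [dirs_cons, dirs_cons, step_cr_zero]
        rfl
  | succ n ih =>
    obtain ⟨p', rfl, hp', -, -⟩ := exists_shift p (by omega)
    match s with
    | [] => rw [pc_shift_nil, pc_shift_nil]
    | c :: s =>
      rw [pc_shift_cons, pc_shift_cons]
      refine ih p' s _ _ (fun t ht => h (c :: t) ?_) (by omega)
      rw [dirs_cons, step_shift_one, ht]
      rfl

theorem act_congr (q : K) (D : List (Piece Bool)) (s : St N) (V V' : St N → K)
    (h : ∀ t, run D (dirs s) = some (dirs t) → V t = V' t) : act q D V s = act q D V' s := by
  induction D generalizing s with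
  | nil => exact h s rfl
  | cons p D ih =>
    rw [act_cons, act_cons]
    refine pc_congr q p s _ _ fun t ht => ih t fun u hu => h u ?_
    rw [run_cons, ht, Option.bind_some, hu]

theorem act_zero (q : K) (D : List (Piece Bool)) : act q D (0 : St N → K) = 0 := by
  induction D with
  | nil => rfl
  | cons p D ih => rw [act_cons, ih, map_zero]

/-! ### moves -/

/-- The operators of two words agree on states on which both are defined. -/
def Same (q : K) (N : ℕ) (A B : List (Piece Bool)) : Prop :=
  ∀ (V : St N → K) (s : St N), run A (dirs s) ≠ none → run B (dirs s) ≠ none →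
    act q A V s = act q B V s

theorem act_shift_cons (q : K) (A : List (Piece Bool)) (V : St N → K) (c : Bool × Fin N)
    (s : St N) : act q (A.map (shift 1)) V (c :: s) = act q A (fun t => V (c :: t)) s := by
  induction A generalizing s with
  | nil => rfl
  | cons p A ih =>
    rw [List.map_cons, act_cons, act_cons, pc_shift_cons]
    have e : (fun t => act q (List.map (Piece.shift 1) A) V (c :: t)) =
        act q A (fun t => V (c :: t)) := funext ih
    rw [e]

theorem Same.shift {q : K} {A B : List (Piece Bool)} (hA : A ≠ []) (h : Same q N A B) :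
    Same q N (A.map (shift 1)) (B.map (shift 1)) := by
  intro V s h1 h2
  match s with
  | [] =>
    exfalso
    match A with
    | [] => exact hA rfl
    | p :: A =>
      apply h1
      rw [List.map_cons, run_cons, dirs_nil, step_shift_nil (by norm_num) (by simp)]
      rfl
  | c :: s =>
    rw [act_shift_cons, act_shift_cons]
    apply h
    · intro h3
      apply h1
      rw [dirs_cons, run_shift_one, h3]
      rfl
    · intro h3
      apply h2
      rw [dirs_cons, run_shift_one, h3]
      rfl

theorem crF_lin (q : K) (o a b : Bool) (x y : Fin N) (L : (St N → K) →ₗ[K] (St N → K))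
    (G : Fin N → Fin N → St N → K) (s : St N) :
    crF q o a b x y (fun z w => L (G z w) s) =
      L (fun t => crF q o a b x y (fun z w => G z w t)) s := by
  have h : (fun t => crF q o a b x y (fun z w => G z w t)) =
      cE q o a b x y • G y x + cA q o a b x y • G x y + ∑ z, cB q o a b x y z • G z z := by
    funext t
    simp only [crF, Pi.add_apply, Pi.smul_apply, smul_eq_mul, Finset.sum_apply]
  rw [h, map_add, map_add, map_smul, map_smul, map_sum]
  simp only [crF, Pi.add_apply, Pi.smul_apply, smul_eq_mul, Finset.sum_apply, map_smul]

/-- Far commutativity. -/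
theorem pc_far (q : K) (x y : Piece Bool) (h : x.pos ≤ y.pos) (V : St N → K) (s : St N) :
    pc q x (pc q (y.shift x.out) V) s = pc q (y.shift x.inn) (pc q x V) s := by
  obtain ⟨n, hn⟩ : ∃ n, n = x.pos := ⟨_, rfl⟩
  induction n generalizing x y s V with
  | zero =>
    cases x with
    | cup i a =>
      obtain rfl : i = 0 := hn.symm
      change _ = pc q (y.shift 0) _ s
      rw [shift_zero, pc_cup]
      change ∑ c, cupw q a c * pc q (y.shift 2) V ((a, c) :: (!a, c) :: s) = _
      simp only [pc_shift_two]
      have e : (pc q (cup 0 a) V : St N → K) =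
          ∑ c, cupw q a c • (fun t => V ((a, c) :: (!a, c) :: t)) := by
        funext t
        rw [pc_cup]
        simp only [Finset.sum_apply, Pi.smul_apply, smul_eq_mul]
      rw [e, map_sum]
      simp only [Finset.sum_apply, map_smul, Pi.smul_apply, smul_eq_mul]
    | cap i =>
      obtain rfl : i = 0 := hn.symm
      change pc q (cap 0) (pc q (y.shift 0) V) s = pc q (y.shift 2) _ s
      rw [shift_zero]
      match s with
      | [] => rw [pc_cap_nil, pc_shift_short q y _ 2 [] (by simp)]
      | [c] => rw [pc_cap_one, pc_shift_short q y _ 2 [c] (by simp)]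
      | (a, u) :: (b, v) :: t =>
        rw [pc_shift_two, pc_cap]
        simp only [pc_cap]
        by_cases hb : b = !a
        · by_cases hu : u = v
          · simp only [if_pos hb, if_pos hu]
            have e : (fun t => capw q a u * V t) = capw q a u • V := rfl
            rw [e, map_smul]
            rfl
          · simp only [if_pos hb, if_neg hu]
            have e : (fun _ => 0 : St N → K) = 0 := rfl
            rw [e, map_zero]
            rfl
        · simp only [if_neg hb]
          have e : (fun _ => 0 : St N → K) = 0 := rfl
          rw [e, map_zero]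
          rfl
    | cr i o =>
      obtain rfl : i = 0 := hn.symm
      change pc q (cr 0 o) (pc q (y.shift 2) V) s = pc q (y.shift 2) _ s
      match s with
      | [] => rw [pc_cr_nil, pc_shift_short q y _ 2 [] (by simp)]
      | [c] => rw [pc_cr_one, pc_shift_short q y _ 2 [c] (by simp)]
      | (a, u) :: (b, v) :: t =>
        rw [pc_shift_two, pc_cr]
        simp only [pc_cr, pc_shift_two]
        rw [crF_lin]
  | succ n ih =>
    obtain ⟨x', rfl, hx', hxi, hxo⟩ := exists_shift x (by omega)
    obtain ⟨y', rfl, hy', -, -⟩ := exists_shift y (by omega)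
    rw [← hxi, ← hxo, shift_shift, shift_shift, Nat.add_comm 1, Nat.add_comm 1,
      ← shift_shift, ← shift_shift]
    match s with
    | [] => rw [pc_shift_nil, pc_shift_nil]
    | c :: s =>
      rw [pc_shift_cons, pc_shift_cons]
      simp only [pc_shift_cons]
      exact ih x' y' (by omega) _ s (by omega)

end

end Helper99.GLN
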