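import Pool.Agent.Helper99.GLN.Act

/-!
# The `gl_N` state sum: invariance under the moves
-/

namespace Helper99.GLN

open Pool.Agent.Helper26.WD Pool.Agent.Helper26.WD.Piece

noncomputable section

variable {K : Type*} [Field K] {N : ℕ}

theorem crF_zero (q : K) (o a b : Bool) (x y : Fin N) :
    crF q o a b x y (fun _ _ => 0) = 0 := by
  simp [crF]

/-! ### slides as identities of operators -/

theorem slideCup_eq {q : K} (hq : q ≠ 0) (i : ℕ) (a o : Bool) (V : St N → K) :
    pc q (cup i a) (pc q (cr (i + 1) o) V) = pc q (cup (i + 1) a) (pc q (cr i (!o)) V) := by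
  funext s
  induction i generalizing s V with
  | zero =>
    match s with
    | [] =>
      rw [cup_succ, pc_shift_nil, pc_cup]
      refine Finset.sum_eq_zero fun c _ => ?_
      rw [cr_succ, pc_shift_cons, pc_cr_one, mul_zero]
    | (d, y) :: t =>
      rw [cup_succ, cr_succ, pc_shift_cons, pc_cup, pc_cup]
      simp only [pc_shift_cons, pc_cr]
      exact crF_slideCup hq o a d y (fun x z w => V ((a, x) :: (d, z) :: (!a, w) :: t))
  | succ i ih =>
    match s with
    | [] => rw [cup_succ, cup_succ, pc_shift_nil, pc_shift_nil]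
    | c :: s =>
      rw [cup_succ (i + 1), cup_succ i, cr_succ (i + 1), cr_succ i, pc_shift_cons, pc_shift_cons]
      simp only [pc_shift_cons]
      exact ih _ s

theorem slideCap_eq {q : K} (hq : q ≠ 0) (i : ℕ) (o : Bool) (V : St N → K) :
    pc q (cr i o) (pc q (cap (i + 1)) V) = pc q (cr (i + 1) (!o)) (pc q (cap i) V) := by
  funext s
  induction i generalizing s V with
  | zero =>
    match s with
    | [] => rw [cr_succ, pc_shift_nil, pc_cr_nil]
    | [c] => rw [cr_succ, pc_shift_cons, pc_cr_nil, pc_cr_one]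
    | [(a, x), (b, y)] =>
      rw [cr_succ, pc_shift_cons, pc_cr_one, pc_cr, cap_succ]
      simp only [pc_shift_cons, pc_cap_one]
      exact crF_zero _ _ _ _ _ _
    | (a, x) :: (b, y) :: (c, r) :: t =>
      rw [cr_succ, pc_shift_cons, pc_cr, pc_cr, cap_succ]
      simp only [pc_shift_cons, pc_cap]
      by_cases hc : c = !a
      · subst hc
        simp only [if_true]
        have e1 : ∀ z w : Fin N, (if w = r then capw q a w * V ((b, z) :: t) else 0) =
            (if w = r then capw q a w * (fun z => V ((b, z) :: t)) z else 0) := fun _ _ => rfl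
        exact crF_slideCap hq o a b x y r (fun z => V ((b, z) :: t))
      · simp only [if_neg hc]
        rw [crF_zero, crF_zero]
  | succ i ih =>
    match s with
    | [] => rw [cr_succ, cr_succ, pc_shift_nil, pc_shift_nil]
    | c :: s =>
      rw [cr_succ (i + 1), cr_succ i, cap_succ (i + 1), cap_succ i, pc_shift_cons, pc_shift_cons]
      simp only [pc_shift_cons]
      exact ih _ s

/-! ### far commutativity, special cases -/

theorem far_cap_cr (q : K) (j : ℕ) (o : Bool) (V : St N → K) :
    pc q (cap 0) (pc q (cr j o) V) = pc q (cr (j + 2) o) (pc q (cap 0) V) :=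
  funext fun s => pc_far q (cap 0) (cr j o) (Nat.zero_le _) V s

theorem far_cr_cr (q : K) (i j : ℕ) (h : i ≤ j) (o o' : Bool) (V : St N → K) :
    pc q (cr i o) (pc q (cr (j + 2) o') V) = pc q (cr (j + 2) o') (pc q (cr i o) V) :=
  funext fun s => pc_far q (cr i o) (cr j o') h V s

theorem far_cr_cup (q : K) (i j : ℕ) (h : i ≤ j) (o a : Bool) (V : St N → K) :
    pc q (cr i o) (pc q (cup (j + 2) a) V) = pc q (cup (j + 2) a) (pc q (cr i o) V) :=
  funext fun s => pc_far q (cr i o) (cup j a) h V s

/-! ### zigzags -/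

theorem zigR_zero {q : K} (hq : q ≠ 0) (a : Bool) (x : Fin N) (V : St N → K) (t : St N) :
    pc q (cup 0 a) (pc q (cap 1) V) ((a, x) :: t) = V ((a, x) :: t) := by
  rw [pc_cup, cap_succ]
  simp only [pc_shift_cons, pc_cap]
  simp only [Bool.not_not, if_true, mul_ite, mul_zero, Finset.sum_ite_eq', Finset.mem_univ]
  rw [← mul_assoc, cup_cap hq, one_mul]

theorem zigL_zero {q : K} (hq : q ≠ 0) (a : Bool) (x : Fin N) (V : St N → K) (t : St N) :
    pc q (cup 1 a) (pc q (cap 0) V) ((!a, x) :: t) = V ((!a, x) :: t) := by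
  rw [cup_succ, pc_shift_cons, pc_cup]
  simp only [pc_cap]
  simp only [Bool.not_not, if_true, mul_ite, mul_zero, Finset.sum_ite_eq, Finset.mem_univ]
  rw [← mul_assoc, cup_cap hq, one_mul]

theorem zigL_zero' {q : K} (hq : q ≠ 0) (a : Bool) (x : Fin N) (V : St N → K) (t : St N) :
    pc q (cup 1 (!a)) (pc q (cap 0) V) ((a, x) :: t) = V ((a, x) :: t) := by
  have := zigL_zero hq (!a) x V t
  rwa [Bool.not_not] at this

/-! ### second Reidemeister move -/

theorem r2_zero {q : K} (hq : q ≠ 0) (o : Bool) (c d : Bool × Fin N) (V : St N → K)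
    (t : St N) : pc q (cr 0 o) (pc q (cr 0 (!o)) V) (c :: d :: t) = V (c :: d :: t) := by
  obtain ⟨a, x⟩ := c
  obtain ⟨b, y⟩ := d
  rw [pc_cr]
  simp only [pc_cr]
  exact crF_r2 hq o a b x y (fun z w => V ((a, z) :: (b, w) :: t))

theorem r2_zero' {q : K} (hq : q ≠ 0) (o : Bool) (c d : Bool × Fin N) (V : St N → K)
    (t : St N) : pc q (cr 0 (!o)) (pc q (cr 0 o) V) (c :: d :: t) = V (c :: d :: t) := by
  have := r2_zero hq (!o) c d V t
  rwa [Bool.not_not] at this

theorem r2_one {q : K} (hq : q ≠ 0) (o : Bool) (e c d : Bool × Fin N) (V : St N → K)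
    (t : St N) : pc q (cr 1 o) (pc q (cr 1 (!o)) V) (e :: c :: d :: t) = V (e :: c :: d :: t) := by
  rw [cr_succ, cr_succ, pc_shift_cons]
  simp only [pc_shift_cons]
  exact r2_zero hq o c d _ t

theorem r2_one' {q : K} (hq : q ≠ 0) (o : Bool) (e c d : Bool × Fin N) (V : St N → K)
    (t : St N) : pc q (cr 1 (!o)) (pc q (cr 1 o) V) (e :: c :: d :: t) = V (e :: c :: d :: t) := by
  have := r2_one hq (!o) e c d V t
  rwa [Bool.not_not] at this

/-! ### third Reidemeister move -/

theorem pc_cr' (q : K) (o : Bool) (V : St N → K) (a b : Bool) (x y : Fin N)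
    (e : Bool × Fin N) (t : St N) :
    pc q (cr 1 o) V (e :: (a, x) :: (b, y) :: t) =
      crF q o a b x y (fun z w => V (e :: (b, z) :: (a, w) :: t)) := rfl

/-- The third Reidemeister move at position `0` for given directions. -/
def R3 (q : K) (N : ℕ) (o₁ o₂ o₃ a b c : Bool) : Prop :=
  ∀ (V : St N → K) (x y z : Fin N) (t : St N),
    pc q (cr 0 o₁) (pc q (cr 1 o₂) (pc q (cr 0 o₃) V)) ((a, x) :: (b, y) :: (c, z) :: t) =
    pc q (cr 1 o₃) (pc q (cr 0 o₂) (pc q (cr 1 o₁) V)) ((a, x) :: (b, y) :: (c, z) :: t)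

theorem R3_base {q : K} (hq : q ≠ 0) : R3 q N true true true true true true := by
  intro V x y z t
  simp only [pc_cr, pc_cr']
  exact crF_r3 hq x y z (fun u v w => V ((true, u) :: (true, v) :: (true, w) :: t))

theorem R3_swap₁ {q : K} (hq : q ≠ 0) {o₁ o₂ o₃ a b c : Bool} (h : R3 q N o₁ o₂ o₃ a b c) :
    R3 q N (!o₁) o₃ o₂ b a c := by
  intro V y x z t
  rw [← r2_zero' hq o₁ (b, y) (a, x) (pc q (cr 1 o₂) (pc q (cr 0 o₃) (pc q (cr 1 (!o₁)) V)))]
  rw [pc_cr, pc_cr]
  refine crF_congr _ _ _ _ _ _ fun z' w' => ?_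
  rw [h]
  rw [pc_cr', pc_cr']
  refine crF_congr _ _ _ _ _ _ fun p r => ?_
  rw [pc_cr, pc_cr]
  refine crF_congr _ _ _ _ _ _ fun u v => ?_
  rw [r2_one hq]

theorem R3_swap₂ {q : K} (hq : q ≠ 0) {o₁ o₂ o₃ a b c : Bool} (h : R3 q N o₁ o₂ o₃ a b c) :
    R3 q N o₂ o₁ (!o₃) a c b := by
  intro V x z y t
  rw [← r2_one' hq o₃ (a, x) (c, z) (b, y) (pc q (cr 0 o₂) (pc q (cr 1 o₁) (pc q (cr 0 (!o₃)) V)))]
  rw [pc_cr', pc_cr']
  refine crF_congr _ _ _ _ _ _ fun z' w' => ?_
  rw [← h]
  rw [pc_cr, pc_cr]
  refine crF_congr _ _ _ _ _ _ fun p r => ?_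
  rw [pc_cr', pc_cr']
  refine crF_congr _ _ _ _ _ _ fun u v => ?_
  rw [r2_zero hq]

theorem pc_cup3 (q : K) (a : Bool) (V : St N → K) (c₁ c₂ c₃ : Bool × Fin N) (t : St N) :
    pc q (cup 3 a) V (c₁ :: c₂ :: c₃ :: t) =
      ∑ c, cupw q a c * V (c₁ :: c₂ :: c₃ :: (a, c) :: (!a, c) :: t) := rfl

theorem three_shift (q : K) (i j k : ℕ) (o o' o'' : Bool) (V : St N → K) (e : Bool × Fin N)
    (s : St N) :
    pc q (cr (i + 1) o) (pc q (cr (j + 1) o') (pc q (cr (k + 1) o'') V)) (e :: s) =
      pc q (cr i o) (pc q (cr j o') (pc q (cr k o'') (fun t => V (e :: t)))) s := by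
  simp only [cr_succ, pc_shift_cons]

theorem R3_bend {q : K} (hq : q ≠ 0) {o₁ o₂ o₃ a b c : Bool}
    (h : R3 q N o₃ (!o₁) (!o₂) b c (!a)) : R3 q N o₁ o₂ o₃ a b c := by
  intro V x y z t
  have e1 : pc q (cr 0 o₁) (pc q (cr 1 o₂) (pc q (cr 0 o₃) V)) ((a, x) :: (b, y) :: (c, z) :: t) =
      pc q (cup 3 (!a)) (pc q (cr 2 (!o₂)) (pc q (cr 1 (!o₁)) (pc q (cr 2 o₃)
        (pc q (cap 0) V)))) ((a, x) :: (b, y) :: (c, z) :: t) := by
    rw [← zigL_zero' hq a x (pc q (cr 0 o₁) (pc q (cr 1 o₂) (pc q (cr 0 o₃) V)))]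
    rw [far_cap_cr, far_cap_cr, far_cap_cr]
    rw [slideCup_eq hq 1 (!a) o₁]
    rw [far_cr_cr q 1 1 le_rfl (!o₁) o₂]
    rw [slideCup_eq hq 2 (!a) o₂]
  have e2 : pc q (cr 1 o₃) (pc q (cr 0 o₂) (pc q (cr 1 o₁) V)) ((a, x) :: (b, y) :: (c, z) :: t) =
      pc q (cup 3 (!a)) (pc q (cr 1 o₃) (pc q (cr 2 (!o₁)) (pc q (cr 1 (!o₂))
        (pc q (cap 0) V)))) ((a, x) :: (b, y) :: (c, z) :: t) := by
    have e3 : pc q (cr 1 o₃) (pc q (cr 0 o₂) (pc q (cr 1 o₁) V))
        ((a, x) :: (b, y) :: (c, z) :: t) =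
        pc q (cr 1 o₃) (pc q (cr 0 o₂) (pc q (cr 1 o₁) (pc q (cup 3 (!a)) (pc q (cap 2) V))))
          ((a, x) :: (b, y) :: (c, z) :: t) := by
      rw [pc_cr', pc_cr']
      refine crF_congr _ _ _ _ _ _ fun z' w' => ?_
      rw [pc_cr, pc_cr]
      refine crF_congr _ _ _ _ _ _ fun p r => ?_
      rw [pc_cr', pc_cr']
      refine crF_congr _ _ _ _ _ _ fun u v => ?_
      rw [cup_succ 2, cup_succ 1, cap_succ 1, cap_succ 0, pc_shift_cons, pc_shift_cons]
      simp only [pc_shift_cons]
      rw [zigL_zero' hq]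
    rw [e3, far_cr_cup q 1 1 le_rfl, far_cr_cup q 0 1 (by norm_num), far_cr_cup q 1 1 le_rfl]
    rw [slideCap_eq hq 1 o₁, far_cr_cr q 0 0 le_rfl, slideCap_eq hq 0 o₂]
  rw [e1, e2, pc_cup3, pc_cup3]
  refine Finset.sum_congr rfl fun w _ => ?_
  rw [three_shift, three_shift, h]

/-- All third Reidemeister moves for given directions. -/
def R3All (q : K) (N : ℕ) (a b c : Bool) : Prop :=
  ∀ o₁ o₂ o₃ : Bool, ¬ (o₁ = o₃ ∧ o₂ ≠ o₁) → R3 q N o₁ o₂ o₃ a b c

theorem R3All_base {q : K} (hq : q ≠ 0) : R3All q N true true true := by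
  have ttt : R3 q N true true true true true true := R3_base hq
  have ftt := R3_swap₁ hq ttt
  have ttf := R3_swap₂ hq ttt
  rw [Bool.not_true] at ftt ttf
  have tff := R3_swap₂ hq ftt
  have fft := R3_swap₁ hq ttf
  rw [Bool.not_true] at tff fft
  have fff := R3_swap₂ hq fft
  rw [Bool.not_true] at fff
  intro o₁ o₂ o₃ h
  cases o₁
  · cases o₂
    · cases o₃
      · exact fff
      · exact fft
    · cases o₃
      · exact absurd (And.intro rfl (by decide)) h
      · exact ftt
  · cases o₂
    · cases o₃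
      · exact tff
      · exact absurd (And.intro rfl (by decide)) h
    · cases o₃
      · exact ttf
      · exact ttt

theorem R3All_bend {q : K} (hq : q ≠ 0) {a b c : Bool} (h : R3All q N b c (!a)) :
    R3All q N a b c := by
  intro o₁ o₂ o₃ ho
  refine R3_bend hq (h o₃ (!o₁) (!o₂) ?_)
  revert ho
  cases o₁ <;> cases o₂ <;> cases o₃ <;> simp

theorem R3All_swap {q : K} (hq : q ≠ 0) {a b c : Bool} (h : R3All q N a b c) :
    R3All q N b a c := by
  intro o₁ o₂ o₃ ho
  have h1 := R3_swap₁ hq (h (!o₁) o₃ o₂ (by revert ho; cases o₁ <;> cases o₂ <;> cases o₃ <;> simp))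
  rwa [Bool.not_not] at h1

theorem R3All_all {q : K} (hq : q ≠ 0) (a b c : Bool) : R3All q N a b c := by
  have ttt : R3All q N true true true := R3All_base hq
  have ftt : R3All q N false true true := R3All_bend hq ttt
  have fft : R3All q N false false true := R3All_bend hq ftt
  have fff : R3All q N false false false := R3All_bend hq fft
  have tff : R3All q N true false false := R3All_bend hq fff
  have ttf : R3All q N true true false := R3All_bend hq tff
  have tft : R3All q N true false true := R3All_swap hq ftt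
  have ftf : R3All q N false true false := R3All_swap hq tff
  cases a
  · cases b
    · cases c
      · exact fff
      · exact fft
    · cases c
      · exact ftf
      · exact ftt
  · cases b
    · cases c
      · exact tff
      · exact tft
    · cases c
      · exact ttf
      · exact ttt

/-! ### all moves -/

theorem same_r3 {q : K} (hq : q ≠ 0) (i : ℕ) (o₁ o₂ o₃ : Bool) (h : ¬ (o₁ = o₃ ∧ o₂ ≠ o₁)) :
    Same q N [cr i o₁, cr (i + 1) o₂, cr i o₃] [cr (i + 1) o₃, cr i o₂, cr (i + 1) o₁] := by
  induction i with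
  | zero =>
    intro V s h1 _
    match s with
    | [] => exact absurd (by simp [step]) h1
    | [c] => exact absurd (by simp [step]) h1
    | [c, d] => exact absurd (by simp [step]) h1
    | (a, x) :: (b, y) :: (c, z) :: t => exact R3All_all hq a b c o₁ o₂ o₃ h V x y z t
  | succ i ih => exact ih.shift (by simp)

theorem same_far (q : K) (x y : Piece Bool) (h : x.pos ≤ y.pos) :
    Same q N [x, y.shift x.out] [y.shift x.inn, x] :=
  fun V s _ _ => pc_far q x y h V s

theorem same_zigR {q : K} (hq : q ≠ 0) (i : ℕ) (a : Bool) :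
    Same q N [cup i a, cap (i + 1)] [] := by
  induction i with
  | zero =>
    intro V s h1 _
    match s with
    | [] => exact absurd (by simp [step]) h1
    | (b, x) :: t =>
      by_cases hb : b = a
      · subst hb
        exact zigR_zero hq b x V t
      · refine absurd ?_ h1
        simp only [dirs_cons, run_cons, step_cup_zero, Option.bind_some]
        have e : step (cap (0 + 1)) (a :: Dir.op a :: b :: dirs t) = none := by
          rw [show (cap (0 + 1) : Piece Bool) = (cap 0).shift 1 from rfl, step_shift_one,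
            step_cap_zero, if_neg]
          · rfl
          · rw [Dir.op_op]; exact hb
        rw [e]
        rfl
  | succ i ih => exact ih.shift (by simp)

theorem same_zigL {q : K} (hq : q ≠ 0) (i : ℕ) (a : Bool) :
    Same q N [cup (i + 1) a, cap i] [] := by
  induction i with
  | zero =>
    intro V s h1 _
    match s with
    | [] => exact absurd (by simp [step]) h1
    | (b, x) :: t =>
      by_cases hb : b = !a
      · subst hb
        exact zigL_zero hq a x V t
      · refine absurd ?_ h1
        simp only [dirs_cons, run_cons]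
        rw [show (cup (0 + 1) a : Piece Bool) = (cup 0 a).shift 1 from rfl, step_shift_one,
          step_cup_zero, Option.map_some, Option.bind_some, step_cap_zero, if_neg]
        · rfl
        · intro h
          apply hb
          rw [h]
          change b = !(!b)
          rw [Bool.not_not]
  | succ i ih => exact ih.shift (by simp)

theorem same_slideCup {q : K} (hq : q ≠ 0) (i : ℕ) (a o : Bool) :
    Same q N [cup i a, cr (i + 1) o] [cup (i + 1) a, cr i (!o)] :=
  fun V s _ _ => congrFun (slideCup_eq hq i a o V) s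

theorem same_slideCap {q : K} (hq : q ≠ 0) (i : ℕ) (o : Bool) :
    Same q N [cr i o, cap (i + 1)] [cr (i + 1) (!o), cap i] :=
  fun V s _ _ => congrFun (slideCap_eq hq i o V) s

theorem same_r2 {q : K} (hq : q ≠ 0) (i : ℕ) (o : Bool) :
    Same q N [cr i o, cr i (!o)] [] := by
  induction i with
  | zero =>
    intro V s h1 _
    match s with
    | [] => exact absurd (by simp [step]) h1
    | [c] => exact absurd (by simp [step]) h1
    | c :: d :: t => exact r2_zero hq o c d V t
  | succ i ih => exact ih.shift (by simp)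

theorem same_curlCup {q : K} (hq : q ≠ 0) (i : ℕ) (a o : Bool) :
    Same q N [cup i a, cr i o] [cup i (Dir.op a)] := by
  induction i with
  | zero =>
    intro V s _ _
    change pc q (cup 0 a) (pc q (cr 0 o) V) s = pc q (cup 0 (!a)) V s
    rw [pc_cup, pc_cup]
    simp only [pc_cr]
    rw [crF_curlCup hq]
    simp only [Bool.not_not]
  | succ i ih => exact ih.shift (by simp)

theorem same_curlCap {q : K} (hq : q ≠ 0) (i : ℕ) (o : Bool) :
    Same q N [cr i o, cap i] [cap i] := by
  induction i with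
  | zero =>
    intro V s h1 _
    match s with
    | [] => exact absurd (by simp [step]) h1
    | [c] => exact absurd (by simp [step]) h1
    | (a, x) :: (b, y) :: t =>
      change pc q (cr 0 o) (pc q (cap 0) V) _ = pc q (cap 0) V _
      rw [pc_cr, pc_cap]
      simp only [pc_cap]
      by_cases hb : b = !a
      · subst hb
        simp only [Bool.not_not, if_true]
        have e : (fun z w : Fin N => if z = w then capw q (!a) z * V t else 0) =
          (fun z w : Fin N => if z = w then capw q (!a) z * V t else 0) := rfl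
        exact crF_curlCap hq o a x y (V t)
      · have hb' : ¬ a = !b := by
          intro h
          apply hb
          rw [h, Bool.not_not]
        simp only [if_neg hb, if_neg hb']
        exact crF_zero _ _ _ _ _ _
  | succ i ih => exact ih.shift (by simp)

theorem same_regMove {q : K} (hq : q ≠ 0) {A B : List (Piece Bool)} (h : RegMove A B) :
    Same q N A B := by
  cases h with
  | far x y h => exact same_far q x y h
  | zigR i a => exact same_zigR hq i a
  | zigL i a => exact same_zigL hq i a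
  | slideCup i a o => exact same_slideCup hq i a o
  | slideCap i o => exact same_slideCap hq i o
  | r2 i o => exact same_r2 hq i o
  | r3 i o₁ o₂ o₃ h => exact same_r3 hq i o₁ o₂ o₃ h

theorem same_move {q : K} (hq : q ≠ 0) {A B : List (Piece Bool)} (h : Move A B) :
    Same q N A B := by
  cases h with
  | reg h => exact same_regMove hq h
  | curlCup i a o => exact same_curlCup hq i a o
  | curlCap i o => exact same_curlCap hq i o

end

end Helper99.GLN
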